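import Pool.Agent.Helper21.PS.Basic

/-!
# MP_8013d7_co (full answer), module SW: re-routing free pairs keeps a path system consistent
-/

set_option autoImplicit false

namespace PS

open SimpleGraph Finset Pool.Agent.Helper37.PathSys
open Pool.Agent.Helper37.PathSys.PathSystem

open scoped Classical

noncomputable section

variable {n : ℕ} {G : SimpleGraph (Fin n)} {P : PathSystem G}

private lemma supp1 {x y c : Fin n} (q : G.Walk x y) (h : q.support = [c]) : x = c ∧ y = c := by
  cases q with
  | nil => simpa using h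
  | cons h' q' => simp at h

private lemma supp2 {x y c d : Fin n} (q : G.Walk x y) (h : q.support = [c, d]) :
    x = c ∧ y = d := by
  cases q with
  | nil => simp at h
  | cons h' q' =>
    rw [Walk.support_cons] at h
    simp only [List.cons.injEq] at h
    exact ⟨h.1, (supp1 q' h.2).2⟩

private lemma supp3 {x y c d e : Fin n} (q : G.Walk x y) (h : q.support = [c, d, e]) :
    x = c ∧ y = e := by
  cases q with
  | nil => simp at h
  | cons h' q' =>
    rw [Walk.support_cons] at h
    simp only [List.cons.injEq] at h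
    exact ⟨h.1, (supp2 q' h.2).2⟩

/-- a free pair is not the pair of ends of a proper part of a path of the system -/
private lemma free_part (hP : P.Consistent) {u v x y : Fin n} (hF : Free P x y)
    (p : G.Walk u x) (q : G.Walk x y) (r : G.Walk y v)
    (h : (P.path u v : G.Walk u v) = p.append (q.append r)) : u = x ∧ v = y := by
  have hpath : (p.append (q.append r)).IsPath := by
    rw [← h]
    exact (P.path u v).2
  constructor
  · by_contra hne
    -- the last edge of `p`
    have hrev : ∃ (u' : Fin n) (p' : G.Walk u u') (ha : G.Adj u' x), p = p'.append (Walk.cons ha Walk.nil) := by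
      have : ∃ (z : Fin n) (ha : G.Adj x z) (p'' : G.Walk z u), p.reverse = Walk.cons ha p'' := by
        cases hp : p.reverse with
        | nil => exact absurd rfl hne
        | cons ha p'' => exact ⟨_, ha, p'', rfl⟩
      obtain ⟨z, ha, p'', hp⟩ := this
      refine ⟨z, p''.reverse, ha.symm, ?_⟩
      have := congrArg Walk.reverse hp
      rw [Walk.reverse_reverse, Walk.reverse_cons] at this
      exact this
    obtain ⟨u', p', ha, rfl⟩ := hrev
    have h1 := hP u v u' y p' ((Walk.cons ha Walk.nil).append q) r (by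
      rw [h, Walk.append_assoc, Walk.append_assoc, Walk.append_assoc])
    have hne' : u' ≠ y := by
      rintro rfl
      have h2 : (p'.append ((Walk.cons ha Walk.nil).append (q.append r))).IsPath := by
        rw [← Walk.append_assoc] at hpath
        exact hpath
      have h3 := h2.of_append_right
      rw [Walk.append_assoc] at h3
      have h4 := Walk.isPath_iff_nil.1 h3.of_append_left
      simp at h4
    apply hF.2 u' hne'
    unfold nxt
    rw [← h1]
    simp
  · by_contra hne
    cases hr : r with
    | nil => exact hne rfl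
    | cons ha r' =>
      rename_i v'
      subst hr
      have h1 := hP u v x v' p (q.append (Walk.cons ha Walk.nil)) r' (by
        rw [h]
        congr 1
        rw [← Walk.append_assoc]
        simp)
      have hne' : v' ≠ x := by
        rintro rfl
        have h3 := hpath.of_append_right
        have h5 : (q.append (Walk.cons ha r')) = (q.append (Walk.cons ha Walk.nil)).append r' := by
          rw [← Walk.append_assoc]
          simp
        rw [h5] at h3
        have h4 := Walk.length_eq_zero_iff.2 (Walk.isPath_iff_nil.1 h3.of_append_left)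
        simp at h4
      apply hF.1 v' hne'
      unfold nxt
      rw [P.symm x v', ← h1]
      simp

/-- general switching lemma -/
theorem switch_general (hP : P.Consistent) (S : Fin n → Fin n → Prop)
    (hsym : ∀ a b, S a b → S b a) (hfree : ∀ a b, S a b → Free P a b)
    (hne : ∀ a b, S a b → a ≠ b)
    (hnd : ∀ a b, S a b → ¬ (dirG P).Adj a b)
    (L : Fin n → Fin n → List (Fin n))
    (hL : ∀ a b, S a b → ∃ w : G.Path a b, (w : G.Walk a b).support = L a b)
    (hLsym : ∀ a b, S a b → L b a = (L a b).reverse)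
    (hLlen : ∀ a b, S a b → 2 < (L a b).length)
    (hpart : ∀ R : PathSystem G, (∀ a b, S a b → (R.path a b : G.Walk a b).support = L a b) →
      (∀ a b, ¬ S a b → R.path a b = P.path a b) → ∀ a b, S a b → ∀ x y (q : G.Walk x y),
        q.support <:+: L a b → q.support ≠ L a b → q = R.path x y) :
    ∃ R : PathSystem G, R.Consistent ∧ dirG R = dirG P ∧
      (∀ a b, S a b → (R.path a b : G.Walk a b).support = L a b) ∧
      (∀ a b, ¬ S a b → R.path a b = P.path a b) := by
  let R : PathSystem G :=
    { path := fun a b => if h : S a b then Classical.choose (hL a b h) else P.path a b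
      symm := by
        intro a b
        by_cases h : S a b
        · have h' := hsym a b h
          rw [dif_pos h, dif_pos h']
          apply Walk.ext_support
          rw [Walk.support_reverse, Classical.choose_spec (hL a b h),
            Classical.choose_spec (hL b a h'), hLsym a b h]
        · have h' : ¬ S b a := fun h1 => h (hsym b a h1)
          rw [dif_neg h, dif_neg h']
          exact P.symm a b }
  have hR1 : ∀ a b, S a b → (R.path a b : G.Walk a b).support = L a b := by
    intro a b h
    change ((if h : S a b then Classical.choose (hL a b h) else P.path a b : G.Path a b) :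
      G.Walk a b).support = L a b
    rw [dif_pos h]
    exact Classical.choose_spec (hL a b h)
  have hR2 : ∀ a b, ¬ S a b → R.path a b = P.path a b := by
    intro a b h
    change (if h : S a b then Classical.choose (hL a b h) else P.path a b : G.Path a b) = _
    rw [dif_neg h]
  have hpart' := hpart R hR1 hR2
  refine ⟨R, ?_, ?_, hR1, hR2⟩
  · intro u v x y p q r h
    by_cases huv : S u v
    · by_cases hq : q.support = L u v
      · have h1 := hR1 u v huv
        have hlen : (R.path u v : G.Walk u v).length = q.length := by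
          have h2 := Walk.length_support (R.path u v : G.Walk u v)
          have h3 := Walk.length_support q
          rw [h1] at h2
          rw [hq] at h3
          omega
        rw [h, Walk.length_append, Walk.length_append] at hlen
        have hp0 : p.length = 0 := by omega
        have hr0 : r.length = 0 := by omega
        obtain rfl : u = x := Walk.eq_of_length_eq_zero hp0
        obtain rfl : y = v := Walk.eq_of_length_eq_zero hr0
        apply Walk.ext_support
        rw [hq, h1]
      · apply hpart' u v huv x y q _ hq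
        rw [← hR1 u v huv, h]
        have h1 : q.support <:+: (q.append r).support := by
          rw [Walk.support_append]
          exact (List.prefix_append _ _).isInfix
        have h2 : (q.append r).support <:+: (p.append (q.append r)).support := by
          rw [Walk.support_append_eq_support_dropLast_append (p := p)]
          exact (List.suffix_append _ _).isInfix
        exact h1.trans h2
    · rw [hR2 u v huv] at h
      have h1 := hP u v x y p q r h
      by_cases hxy : S x y
      · exfalso
        obtain ⟨rfl, rfl⟩ := free_part hP (hfree x y hxy) p q r h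
        exact huv hxy
      · rw [h1, hR2 x y hxy]
  · ext a b
    by_cases hab : S a b
    · have h1 : ¬ (dirG R).Adj a b := by
        intro h
        have h2 : R.nxt a b = b := h.2.1
        have h3 := hR1 a b hab
        have h4 := hLlen a b hab
        rw [← h3, Walk.length_support] at h4
        unfold nxt at h2
        have h5 : (R.path a b : G.Walk a b).IsPath := (R.path a b).2
        revert h2 h4 h5
        generalize (R.path a b : G.Walk a b) = w
        intro h2 h4 h5
        cases w with
        | nil => exact hne _ _ hab rfl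
        | cons h' w' =>
          simp only [Walk.snd_cons] at h2
          subst h2
          have h6 := (Walk.cons_isPath_iff h' w').1 h5
          have h7 := Walk.length_eq_zero_iff.2 (Walk.isPath_iff_nil.1 h6.1)
          rw [Walk.length_cons] at h4
          omega
      exact ⟨fun h => absurd h h1, fun h => absurd h (hnd a b hab)⟩
    · have hba : ¬ S b a := fun h => hab (hsym b a h)
      have e1 : R.nxt a b = P.nxt a b := by
        unfold nxt
        rw [hR2 a b hab]
      have e2 : R.nxt b a = P.nxt b a := by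
        unfold nxt
        rw [hR2 b a hba]
      change (a ≠ b ∧ R.nxt a b = b ∧ R.nxt b a = a) ↔ (a ≠ b ∧ P.nxt a b = b ∧ P.nxt b a = a)
      rw [e1, e2]

private lemma nxt_of_support (R : PathSystem G) {a b z : Fin n} {l : List (Fin n)}
    (h : (R.path a b : G.Walk a b).support = a :: z :: l) : R.nxt a b = z := by
  unfold nxt
  revert h
  generalize (R.path a b : G.Walk a b) = w
  intro h
  cases w with
  | nil => simp at h
  | cons h' w' =>
    rw [Walk.support_cons, ← Walk.cons_tail_support] at h
    simp only [List.cons.injEq] at h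
    simp only [Walk.snd_cons]
    exact h.2.1

theorem switch_star (hP : P.Consistent) (z : Fin n) (S : Finset (Pr n))
    (hS : ∀ p ∈ S, (dirG P).Adj z p.1.1 ∧ (dirG P).Adj z p.1.2 ∧
      ¬ (dirG P).Adj p.1.1 p.1.2 ∧ Free P p.1.1 p.1.2) :
    ∃ P' : PathSystem G, P'.Consistent ∧ dirG P' = dirG P ∧
      (∀ a b : Fin n, (∀ p ∈ S, s(a, b) ≠ s(p.1.1, p.1.2)) → P'.path a b = P.path a b) ∧
      (∀ p ∈ S, P'.nxt p.1.1 p.1.2 = z ∧ P'.nxt p.1.2 p.1.1 = z) := by
  have hFs : ∀ a b, Free P a b → Free P b a := by
    intro a b h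
    refine ⟨fun v hv => ?_, fun u hu => ?_⟩
    · exact h.2 v hv
    · exact h.1 u hu
  have key : ∀ a b : Fin n, (∃ p ∈ S, s(a, b) = s(p.1.1, p.1.2)) →
      (dirG P).Adj z a ∧ (dirG P).Adj z b ∧ ¬ (dirG P).Adj a b ∧ Free P a b ∧ a ≠ b := by
    rintro a b ⟨p, hp, hab⟩
    obtain ⟨h1, h2, h3, h4⟩ := hS p hp
    rw [Sym2.eq_iff] at hab
    rcases hab with ⟨rfl, rfl⟩ | ⟨rfl, rfl⟩
    · exact ⟨h1, h2, h3, h4, p.2.ne⟩
    · exact ⟨h2, h1, fun h => h3 h.symm, hFs _ _ h4, p.2.ne'⟩
  obtain ⟨R, hR, hd, hR1, hR2⟩ := switch_general hP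
    (fun a b => ∃ p ∈ S, s(a, b) = s(p.1.1, p.1.2))
    (by
      rintro a b ⟨p, hp, hab⟩
      exact ⟨p, hp, by rw [← hab, Sym2.eq_swap]⟩)
    (fun a b h => (key a b h).2.2.2.1) (fun a b h => (key a b h).2.2.2.2)
    (fun a b h => (key a b h).2.2.1) (fun a b => [a, z, b])
    (by
      intro a b h
      obtain ⟨h1, h2, h3, h4, h5⟩ := key a b h
      refine ⟨⟨Walk.cons (dirG_le hP h1.symm) (Walk.cons (dirG_le hP h2) Walk.nil), ?_⟩, ?_⟩
      · rw [Walk.isPath_def]
        simp [h5, h1.ne', h2.ne]
      · simp)
    (fun a b _ => by simp) (fun a b _ => by simp)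
    (by
      intro R hR1 hR2 a b h x y q hq hq'
      obtain ⟨h1, h2, h3, h4, h5⟩ := key a b h
      have hedge : ∀ c d : Fin n, (dirG P).Adj c d → ∀ {x y : Fin n} (q : G.Walk x y),
          q.support = [c, d] → q = R.path x y := by
        intro c d hcd x y q hq
        obtain ⟨rfl, rfl⟩ := supp2 q hq
        have h6 : ¬ ∃ p ∈ S, s(x, y) = s(p.1.1, p.1.2) := fun h => (key x y h).2.2.1 hcd
        apply Walk.ext_support
        rw [hR2 x y h6, path_dir hP hcd, hq]
        simp
      have hpt : ∀ c : Fin n, ∀ {x y : Fin n} (q : G.Walk x y),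
          q.support = [c] → q = R.path x y := by
        intro c x y q hq
        obtain ⟨rfl, rfl⟩ := supp1 q hq
        apply Walk.ext_support
        rw [path_self, hq]
        simp
      have hne : q.support ≠ [] := Walk.support_ne_nil q
      simp only [List.infix_cons_iff, List.prefix_cons_iff, List.prefix_nil, List.infix_nil] at hq
      rcases hq with (hq | ⟨t, hq, (ht | ⟨t', ht, (ht' | ⟨t'', ht', ht''⟩)⟩)⟩) | (hq | ⟨t, hq, (ht | ⟨t', ht, ht'⟩)⟩) |
        (hq | ⟨t, hq, ht⟩) | hq
      · exact absurd hq hne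
      · subst ht
        exact hpt a q hq
      · subst ht' ht
        exact hedge a z h1.symm q hq
      · subst ht'' ht' ht
        exact absurd hq hq'
      · exact absurd hq hne
      · subst ht
        exact hpt z q hq
      · subst ht' ht
        exact hedge z b h2 q hq
      · exact absurd hq hne
      · subst ht
        exact hpt b q hq
      · exact absurd hq hne)
  refine ⟨R, hR, hd, ?_, ?_⟩
  · intro a b h
    apply hR2
    rintro ⟨p, hp, hab⟩
    exact h p hp hab
  · intro p hp
    exact ⟨nxt_of_support R (hR1 p.1.1 p.1.2 ⟨p, hp, rfl⟩),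
      nxt_of_support R (hR1 p.1.2 p.1.1 ⟨p, hp, Sym2.eq_swap⟩)⟩

private lemma infix3 {l : List (Fin n)} {a b c : Fin n} (h : l <:+: [a, b, c]) (h0 : l ≠ [])
    (h1 : l ≠ [a, b, c]) : l = [a] ∨ l = [b] ∨ l = [c] ∨ l = [a, b] ∨ l = [b, c] := by
  simp only [List.infix_cons_iff, List.prefix_cons_iff, List.prefix_nil, List.infix_nil] at h
  aesop

private lemma infix4 {l : List (Fin n)} {a b c d : Fin n} (h : l <:+: [a, b, c, d]) (h0 : l ≠ [])
    (h1 : l ≠ [a, b, c, d]) : l = [a] ∨ l = [b] ∨ l = [c] ∨ l = [d] ∨ l = [a, b] ∨ l = [b, c] ∨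
      l = [c, d] ∨ l = [a, b, c] ∨ l = [b, c, d] := by
  rw [List.infix_cons_iff] at h
  rcases h with h | h
  · simp only [List.prefix_cons_iff, List.prefix_nil] at h
    aesop
  · by_cases h2 : l = [b, c, d]
    · simp [h2]
    · have := infix3 h h0 h2
      tauto

theorem switch_quad (hP : P.Consistent) {u v x y : Fin n} (hq : (u, v, x, y) ∈ Quad P) :
    ∃ P' : PathSystem G, P'.Consistent ∧ dirG P' = dirG P ∧
      (∀ a b : Fin n, s(a, b) ≠ s(u, y) → s(a, b) ≠ s(v, x) → s(a, b) ≠ s(u, v) →
        P'.path a b = P.path a b) ∧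
      P'.nxt u y = x ∧ P'.nxt y u = x ∧ P'.nxt v x = y ∧ P'.nxt x v = y ∧
      P'.nxt u v = x ∧ P'.nxt v u = y := by
  have hFs : ∀ a b, Free P a b → Free P b a := by
    intro a b h
    refine ⟨fun v hv => ?_, fun u hu => ?_⟩
    · exact h.2 v hv
    · exact h.1 u hu
  simp only [Quad, mem_filter, mem_univ, true_and] at hq
  obtain ⟨hxy, hux, hvy, huy, hvx, huv, nuy, nvx, nuv, -, -, Fuy, Fvx, Fuv⟩ := hq
  have nxy : x ≠ y := hxy.1
  have nux : u ≠ x := hux.1
  have nvy : v ≠ y := hvy.1
  let S : Fin n → Fin n → Prop := fun a b => s(a, b) = s(u, y) ∨ s(a, b) = s(v, x) ∨ s(a, b) = s(u, v)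
  let L : Fin n → Fin n → List (Fin n) := fun a b =>
    if s(a, b) = s(u, y) then [a, x, b] else if s(a, b) = s(v, x) then [a, y, b] else
      if a = u then [u, x, y, v] else [v, y, x, u]
  have hcase : ∀ a b, S a b → (a = u ∧ b = y) ∨ (a = y ∧ b = u) ∨ (a = v ∧ b = x) ∨
      (a = x ∧ b = v) ∨ (a = u ∧ b = v) ∨ (a = v ∧ b = u) := by
    intro a b h
    simp only [S, Sym2.eq_iff] at h
    tauto
  have L1 : L u y = [u, x, y] := by simp [L]
  have L2 : L y u = [y, x, u] := by
    have : s(y, u) = s(u, y) := Sym2.eq_swap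
    simp [L, this]
  have L3 : L v x = [v, y, x] := by
    have h1 : s(v, x) ≠ s(u, y) := by
      rw [Ne, Sym2.eq_iff]
      rintro (⟨h, -⟩ | ⟨h, -⟩)
      · exact nuv h.symm
      · exact nvy h
    simp only [L]
    rw [if_neg h1, if_pos trivial]
  have L4 : L x v = [x, y, v] := by
    have h1 : s(x, v) ≠ s(u, y) := by
      rw [Ne, Sym2.eq_iff]
      rintro (⟨h, -⟩ | ⟨h, -⟩)
      · exact nux h.symm
      · exact nxy h
    simp only [L]
    rw [if_neg h1, if_pos Sym2.eq_swap]
  have L5 : L u v = [u, x, y, v] := by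
    have h1 : s(u, v) ≠ s(u, y) := by
      rw [Ne, Sym2.eq_iff]
      rintro (⟨-, h⟩ | ⟨h, -⟩)
      · exact nvy h
      · exact nuy h
    have h2 : s(u, v) ≠ s(v, x) := by
      rw [Ne, Sym2.eq_iff]
      rintro (⟨h, -⟩ | ⟨h, -⟩)
      · exact nuv h
      · exact nux h
    simp only [L]
    rw [if_neg h1, if_neg h2, if_pos trivial]
  have L6 : L v u = [v, y, x, u] := by
    have h1 : s(v, u) ≠ s(u, y) := by
      rw [Ne, Sym2.eq_iff]
      rintro (⟨h, -⟩ | ⟨h, -⟩)
      · exact nuv h.symm
      · exact nvy h
    have h2 : s(v, u) ≠ s(v, x) := by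
      rw [Ne, Sym2.eq_iff]
      rintro (⟨-, h⟩ | ⟨h, -⟩)
      · exact nux h
      · exact nvx h
    simp only [L]
    rw [if_neg h1, if_neg h2, if_neg nuv.symm]
  have S1 : S u y := Or.inl rfl
  have S2 : S y u := Or.inl Sym2.eq_swap
  have S3 : S v x := Or.inr (Or.inl rfl)
  have S4 : S x v := Or.inr (Or.inl Sym2.eq_swap)
  have S5 : S u v := Or.inr (Or.inr rfl)
  have S6 : S v u := Or.inr (Or.inr Sym2.eq_swap)
  have hnd : ∀ a b, S a b → ¬ (dirG P).Adj a b := by
    intro a b h
    rcases hcase a b h with ⟨rfl, rfl⟩ | ⟨rfl, rfl⟩ | ⟨rfl, rfl⟩ | ⟨rfl, rfl⟩ | ⟨rfl, rfl⟩ | ⟨rfl, rfl⟩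
    · exact huy
    · exact fun h => huy h.symm
    · exact hvx
    · exact fun h => hvx h.symm
    · exact huv
    · exact fun h => huv h.symm
  have gxy := dirG_le hP hxy
  have gux := dirG_le hP hux
  have gvy := dirG_le hP hvy
  obtain ⟨R, hR, hd, hR1, hR2⟩ := switch_general hP S
    (by
      intro a b h
      rcases hcase a b h with ⟨rfl, rfl⟩ | ⟨rfl, rfl⟩ | ⟨rfl, rfl⟩ | ⟨rfl, rfl⟩ | ⟨rfl, rfl⟩ | ⟨rfl, rfl⟩ <;>
      assumption)
    (by
      intro a b h
      rcases hcase a b h with ⟨rfl, rfl⟩ | ⟨rfl, rfl⟩ | ⟨rfl, rfl⟩ | ⟨rfl, rfl⟩ | ⟨rfl, rfl⟩ | ⟨rfl, rfl⟩ <;>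
      first
      | assumption
      | exact hFs _ _ (by assumption))
    (by
      intro a b h
      rcases hcase a b h with ⟨rfl, rfl⟩ | ⟨rfl, rfl⟩ | ⟨rfl, rfl⟩ | ⟨rfl, rfl⟩ | ⟨rfl, rfl⟩ | ⟨rfl, rfl⟩ <;>
      first
      | assumption
      | exact Ne.symm (by assumption))
    hnd L
    (by
      intro a b h
      rcases hcase a b h with ⟨rfl, rfl⟩ | ⟨rfl, rfl⟩ | ⟨rfl, rfl⟩ | ⟨rfl, rfl⟩ | ⟨rfl, rfl⟩ | ⟨rfl, rfl⟩
      · rw [L1]
        refine ⟨⟨Walk.cons gux (Walk.cons gxy Walk.nil), ?_⟩, by simp⟩
        rw [Walk.isPath_def]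
        simp [nux, nuy, nxy]
      · rw [L2]
        refine ⟨⟨Walk.cons gxy.symm (Walk.cons gux.symm Walk.nil), ?_⟩, by simp⟩
        rw [Walk.isPath_def]
        simp [nux.symm, nuy.symm, nxy.symm]
      · rw [L3]
        refine ⟨⟨Walk.cons gvy (Walk.cons gxy.symm Walk.nil), ?_⟩, by simp⟩
        rw [Walk.isPath_def]
        simp [nvy, nvx, nxy.symm]
      · rw [L4]
        refine ⟨⟨Walk.cons gxy (Walk.cons gvy.symm Walk.nil), ?_⟩, by simp⟩
        rw [Walk.isPath_def]
        simp [nvy.symm, nvx.symm, nxy]
      · rw [L5]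
        refine ⟨⟨Walk.cons gux (Walk.cons gxy (Walk.cons gvy.symm Walk.nil)), ?_⟩, by simp⟩
        rw [Walk.isPath_def]
        simp [nux, nuy, nuv, nxy, nvx.symm, nvy.symm]
      · rw [L6]
        refine ⟨⟨Walk.cons gvy (Walk.cons gxy.symm (Walk.cons gux.symm Walk.nil)), ?_⟩, by simp⟩
        rw [Walk.isPath_def]
        simp [nux.symm, nuy.symm, nuv.symm, nxy.symm, nvx, nvy])
    (by
      intro a b h
      rcases hcase a b h with ⟨rfl, rfl⟩ | ⟨rfl, rfl⟩ | ⟨rfl, rfl⟩ | ⟨rfl, rfl⟩ | ⟨rfl, rfl⟩ | ⟨rfl, rfl⟩
      · rw [L1, L2]; rfl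
      · rw [L1, L2]; rfl
      · rw [L3, L4]; rfl
      · rw [L3, L4]; rfl
      · rw [L5, L6]; rfl
      · rw [L5, L6]; rfl)
    (by
      intro a b h
      rcases hcase a b h with ⟨rfl, rfl⟩ | ⟨rfl, rfl⟩ | ⟨rfl, rfl⟩ | ⟨rfl, rfl⟩ | ⟨rfl, rfl⟩ | ⟨rfl, rfl⟩
      · rw [L1]; simp
      · rw [L2]; simp
      · rw [L3]; simp
      · rw [L4]; simp
      · rw [L5]; simp
      · rw [L6]; simp)
    (by
      intro R hR1 hR2 a b h x' y' q hq hq'
      have hedge : ∀ c d : Fin n, (dirG P).Adj c d → q.support = [c, d] → q = R.path x' y' := by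
        intro c d hcd hq
        obtain ⟨rfl, rfl⟩ := supp2 q hq
        have h6 : ¬ S x' y' := fun h => hnd x' y' h hcd
        apply Walk.ext_support
        rw [hR2 x' y' h6, path_dir hP hcd, hq]
        simp
      have hpt : ∀ c : Fin n, q.support = [c] → q = R.path x' y' := by
        intro c hq
        obtain ⟨rfl, rfl⟩ := supp1 q hq
        apply Walk.ext_support
        rw [path_self, hq]
        simp
      have hthree : ∀ c d e : Fin n, S c e → L c e = [c, d, e] → q.support = [c, d, e] →
          q = R.path x' y' := by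
        intro c d e hS hL hq
        obtain ⟨rfl, rfl⟩ := supp3 q hq
        apply Walk.ext_support
        rw [hR1 _ _ hS, hL, hq]
      have hne : q.support ≠ [] := Walk.support_ne_nil q
      rcases hcase a b h with ⟨rfl, rfl⟩ | ⟨rfl, rfl⟩ | ⟨rfl, rfl⟩ | ⟨rfl, rfl⟩ | ⟨rfl, rfl⟩ | ⟨rfl, rfl⟩
      · rw [L1] at hq hq'
        rcases infix3 hq hne hq' with h | h | h | h | h
        · exact hpt _ h
        · exact hpt _ h
        · exact hpt _ h
        · exact hedge _ _ hux h
        · exact hedge _ _ hxy h
      · rw [L2] at hq hq'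
        rcases infix3 hq hne hq' with h | h | h | h | h
        · exact hpt _ h
        · exact hpt _ h
        · exact hpt _ h
        · exact hedge _ _ hxy.symm h
        · exact hedge _ _ hux.symm h
      · rw [L3] at hq hq'
        rcases infix3 hq hne hq' with h | h | h | h | h
        · exact hpt _ h
        · exact hpt _ h
        · exact hpt _ h
        · exact hedge _ _ hvy h
        · exact hedge _ _ hxy.symm h
      · rw [L4] at hq hq'
        rcases infix3 hq hne hq' with h | h | h | h | h
        · exact hpt _ h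
        · exact hpt _ h
        · exact hpt _ h
        · exact hedge _ _ hxy h
        · exact hedge _ _ hvy.symm h
      · rw [L5] at hq hq'
        rcases infix4 hq hne hq' with h | h | h | h | h | h | h | h | h
        · exact hpt _ h
        · exact hpt _ h
        · exact hpt _ h
        · exact hpt _ h
        · exact hedge _ _ hux h
        · exact hedge _ _ hxy h
        · exact hedge _ _ hvy.symm h
        · exact hthree _ _ _ S1 L1 h
        · exact hthree _ _ _ S4 L4 h
      · rw [L6] at hq hq'
        rcases infix4 hq hne hq' with h | h | h | h | h | h | h | h | h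
        · exact hpt _ h
        · exact hpt _ h
        · exact hpt _ h
        · exact hpt _ h
        · exact hedge _ _ hvy h
        · exact hedge _ _ hxy.symm h
        · exact hedge _ _ hux.symm h
        · exact hthree _ _ _ S3 L3 h
        · exact hthree _ _ _ S2 L2 h)
  refine ⟨R, hR, hd, ?_, ?_, ?_, ?_, ?_, ?_, ?_⟩
  · intro a b h1 h2 h3
    apply hR2
    rintro (h | h | h)
    · exact h1 h
    · exact h2 h
    · exact h3 h
  · exact nxt_of_support R ((hR1 _ _ S1).trans L1)
  · exact nxt_of_support R ((hR1 _ _ S2).trans L2)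
  · exact nxt_of_support R ((hR1 _ _ S3).trans L3)
  · exact nxt_of_support R ((hR1 _ _ S4).trans L4)
  · exact nxt_of_support R ((hR1 _ _ S5).trans L5)
  · exact nxt_of_support R ((hR1 _ _ S6).trans L6)

end

end PS
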